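import Mathlib

/-!
# Gabor systems with a multi-tiling window of level at least two

For every dimension `d ≥ 1`, every full rank lattice `M(ℤ^d)` and every level `k ≥ 2` there is a
bounded set `Ω` (a finite union of parallelepipeds) which multi-tiles `ℝ^d` by the lattice at
level `k` and for which no set `Γ` of frequencies makes the Gabor system of the indicator
function of `Ω` over `Λ × Γ` a Riesz basis of `L²(ℝ^d)`.
-/

namespace Pool.Agent.Results.MP_9d6809_an.NoGamma

open MeasureTheory

noncomputable section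

/-- The lattice `M(ℤ^d)` of a nonsingular linear map `M` of `ℝ^d`. -/
def lattice {d : ℕ} (M : EuclideanSpace ℝ (Fin d) ≃ₗ[ℝ] EuclideanSpace ℝ (Fin d)) :
    Set (EuclideanSpace ℝ (Fin d)) :=
  {v | ∃ z : Fin d → ℤ, v = M (WithLp.toLp 2 (fun i => (z i : ℝ)))}

/-- `Ω` multi-tiles `ℝ^d` by `Λ` at level `k`: for almost every `x` there are exactly `k` elements
`v ∈ Λ` with `x ∈ Ω + v`. -/
def MultiTiles {d : ℕ} (Ω Λ : Set (EuclideanSpace ℝ (Fin d))) (k : ℕ) : Prop :=
  ∀ᵐ x : EuclideanSpace ℝ (Fin d), {v | v ∈ Λ ∧ x - v ∈ Ω}.encard = k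

/-- The time-frequency shift `x ↦ exp (2πi γ·x) g(x - v)`. -/
def gaborFun {d : ℕ} (g : EuclideanSpace ℝ (Fin d) → ℂ) (v γ : EuclideanSpace ℝ (Fin d)) :
    EuclideanSpace ℝ (Fin d) → ℂ :=
  fun x => Complex.exp (((2 * Real.pi * inner ℝ γ x : ℝ) : ℂ) * Complex.I) * g (x - v)

/-- The Gabor system of `g` over `Λ × Γ`, as a set of functions. -/
def gaborSystem {d : ℕ} (g : EuclideanSpace ℝ (Fin d) → ℂ)
    (Λ Γ : Set (EuclideanSpace ℝ (Fin d))) : Set (EuclideanSpace ℝ (Fin d) → ℂ) :=
  {f | ∃ v ∈ Λ, ∃ γ ∈ Γ, f = gaborFun g v γ}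

/-- A Riesz basis of a Hilbert space: the image of an orthonormal basis (an orthonormal set whose
span is dense) under a bounded invertible linear operator. -/
def IsRieszBasis {H : Type*} [NormedAddCommGroup H] [InnerProductSpace ℂ H] (S : Set H) : Prop :=
  ∃ (B : Set H) (T : H ≃L[ℂ] H), Orthonormal ℂ ((↑) : B → H) ∧
    (Submodule.span ℂ B).topologicalClosure = ⊤ ∧ S = T '' B

/-- The elements of `L²(μ)` represented by a member of a set of functions. -/
def classes {α : Type*} [MeasurableSpace α] (μ : Measure α) (S : Set (α → ℂ)) :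
    Set (Lp ℂ 2 μ) :=
  {F | ∃ f ∈ S, F =ᵐ[μ] f}

/-- The set `S` of functions is a Riesz basis of `L²(μ)`. -/
def IsRieszBasisOfL2 {α : Type*} [MeasurableSpace α] (μ : Measure α) (S : Set (α → ℂ)) : Prop :=
  IsRieszBasis (classes μ S)

/-- The conditions on the window: bounded, measurable, of positive finite measure. -/
def IsWindow {d : ℕ} (Ω : Set (EuclideanSpace ℝ (Fin d))) : Prop :=
  MeasurableSet Ω ∧ Bornology.IsBounded Ω ∧ 0 < volume Ω ∧ volume Ω < ⊤

/-- Telescoping: the sum of `ω^n` times a window of `k` consecutive vectors is bounded. -/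
theorem norm_window_sum_le {V : Type*} [NormedAddCommGroup V] [NormedSpace ℂ V]
    (u : ℕ → V) (C : ℝ) (hC : ∀ n, ‖u n‖ ≤ C) (k : ℕ) (ω : ℂ) (hω : ‖ω‖ = 1)
    (hsum : ∑ j ∈ Finset.range k, ω ^ j = 0) (N : ℕ) :
    ‖∑ n ∈ Finset.range N, ω ^ n • ∑ j ∈ Finset.range k, u (n + j)‖ ≤ 2 * k * k * C := by
  have hω0 : ω ≠ 0 := by
    intro h
    rw [h] at hω
    simp at hω
  have hC0 : 0 ≤ C := le_trans (norm_nonneg _) (hC 0)
  set w : ℕ → V := fun m => ω ^ m • u m with hw
  have hwC : ∀ m, ‖w m‖ ≤ C := by
    intro m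
    simp only [hw, norm_smul, norm_pow, hω, one_pow, one_mul]
    exact hC m
  -- the sum of the inverse powers vanishes as well
  have hsum' : ∑ j ∈ Finset.range k, (ω⁻¹) ^ j = 0 := by
    have h1 : (starRingEnd ℂ) (∑ j ∈ Finset.range k, ω ^ j) = 0 := by rw [hsum]; simp
    rw [map_sum] at h1
    have h2 : (starRingEnd ℂ) ω = ω⁻¹ := by
      rw [Complex.inv_def, Complex.normSq_eq_norm_sq, hω]
      simp
    simpa [map_pow, h2] using h1
  have key : ∑ n ∈ Finset.range N, ω ^ n • ∑ j ∈ Finset.range k, u (n + j)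
      = ∑ j ∈ Finset.range k, (ω⁻¹) ^ j •
        (∑ m ∈ Finset.range (N + j), w m - ∑ m ∈ Finset.range j, w m) := by
    simp_rw [Finset.smul_sum]
    rw [Finset.sum_comm]
    refine Finset.sum_congr rfl (fun j _ => ?_)
    have h3 : ∑ m ∈ Finset.range (N + j), w m - ∑ m ∈ Finset.range j, w m
        = ∑ n ∈ Finset.range N, w (n + j) := by
      rw [add_comm N j, Finset.sum_range_add]
      simp [add_comm]
    rw [h3, Finset.smul_sum]
    refine Finset.sum_congr rfl (fun n _ => ?_)
    simp only [hw, smul_smul]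
    congr 1
    rw [pow_add, inv_pow]
    field_simp
  have key2 : ∑ j ∈ Finset.range k, (ω⁻¹) ^ j •
        (∑ m ∈ Finset.range (N + j), w m - ∑ m ∈ Finset.range j, w m)
      = ∑ j ∈ Finset.range k, (ω⁻¹) ^ j •
        (∑ m ∈ Finset.range j, w (N + m) - ∑ m ∈ Finset.range j, w m) := by
    have h4 : ∑ j ∈ Finset.range k, (ω⁻¹) ^ j • (∑ m ∈ Finset.range N, w m) = 0 := by
      rw [← Finset.sum_smul, hsum', zero_smul]
    rw [← sub_eq_zero, ← Finset.sum_sub_distrib]
    rw [← h4]
    refine Finset.sum_congr rfl (fun j _ => ?_)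
    rw [← smul_sub]
    congr 1
    rw [Finset.sum_range_add]
    abel
  rw [key, key2]
  have hbd : ∀ j ∈ Finset.range k, ‖(ω⁻¹) ^ j •
        (∑ m ∈ Finset.range j, w (N + m) - ∑ m ∈ Finset.range j, w m)‖ ≤ 2 * k * C := by
    intro j hj
    have hj' : (j : ℝ) ≤ k := by exact_mod_cast (Finset.mem_range.mp hj).le
    rw [norm_smul, norm_pow, norm_inv, hω, inv_one, one_pow, one_mul]
    have h5 : ‖∑ m ∈ Finset.range j, w (N + m)‖ ≤ j * C := by
      refine (norm_sum_le_of_le _ (fun m _ => hwC (N + m))).trans ?_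
      simp
    have h6 : ‖∑ m ∈ Finset.range j, w m‖ ≤ j * C := by
      refine (norm_sum_le_of_le _ (fun m _ => hwC m)).trans ?_
      simp
    have h7 : (j : ℝ) * C ≤ k * C := mul_le_mul_of_nonneg_right hj' hC0
    calc _ ≤ ‖∑ m ∈ Finset.range j, w (N + m)‖ + ‖∑ m ∈ Finset.range j, w m‖ := norm_sub_le _ _
      _ ≤ 2 * k * C := by linarith
  refine (norm_sum_le_of_le _ hbd).trans ?_
  simp only [Finset.sum_const, Finset.card_range, nsmul_eq_mul]
  apply le_of_eq
  ring

/-- The abstract obstruction: if a set contains the (pairwise distinct) sums of `k` consecutive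
members of a bounded sequence, it is not a Riesz basis. -/
theorem not_isRieszBasis {V : Type*} [NormedAddCommGroup V] [InnerProductSpace ℂ V]
    (S : Set V) (u : ℕ → V) (C : ℝ) (hC : ∀ n, ‖u n‖ ≤ C) (k : ℕ) (hk : 2 ≤ k)
    (hinj : Function.Injective (fun n => ∑ j ∈ Finset.range k, u (n + j)))
    (hS : ∀ n, ∑ j ∈ Finset.range k, u (n + j) ∈ S) : ¬ IsRieszBasis S := by
  rintro ⟨B, T, hB, -, rfl⟩
  choose b hbB hb using hS
  set ω : ℂ := Complex.exp (2 * Real.pi * Complex.I / k) with hωdef
  have hprim : IsPrimitiveRoot ω k := Complex.isPrimitiveRoot_exp k (by omega)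
  have hω : ‖ω‖ = 1 := hprim.norm'_eq_one (by omega)
  have hsum : ∑ j ∈ Finset.range k, ω ^ j = 0 := hprim.geom_sum_eq_zero (by omega)
  have hbinj : Function.Injective (fun n => (⟨b n, hbB n⟩ : B)) := by
    intro n m hnm
    apply hinj
    have : b n = b m := by simpa using congrArg Subtype.val hnm
    change ∑ j ∈ Finset.range k, u (n + j) = ∑ j ∈ Finset.range k, u (m + j)
    rw [← hb n, ← hb m, this]
  have hon : Orthonormal ℂ b := by
    have := hB.comp (fun n => (⟨b n, hbB n⟩ : B)) hbinj
    exact this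
  have hC0 : 0 ≤ C := le_trans (norm_nonneg _) (hC 0)
  -- lower bound
  have hlow : ∀ N : ℕ, (N : ℝ) ≤
      (‖(T.symm : V →L[ℂ] V)‖ * (2 * k * k * C)) ^ 2 := by
    intro N
    have h1 : ‖∑ n ∈ Finset.range N, ω ^ n • b n‖ ^ 2 = N := by
      have := hon.inner_sum (fun n => ω ^ n) (fun n => ω ^ n) (Finset.range N)
      rw [← @inner_self_eq_norm_sq ℂ, this]
      have h2 : ∀ n ∈ Finset.range N, (starRingEnd ℂ) (ω ^ n) * ω ^ n = 1 := by
        intro n _
        rw [← Complex.normSq_eq_conj_mul_self, Complex.normSq_eq_norm_sq, norm_pow, hω]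
        simp
      rw [Finset.sum_congr rfl h2]
      simp
    have h3 : (T.symm : V →L[ℂ] V)
        (∑ n ∈ Finset.range N, ω ^ n • ∑ j ∈ Finset.range k, u (n + j))
        = ∑ n ∈ Finset.range N, ω ^ n • b n := by
      rw [map_sum]
      refine Finset.sum_congr rfl (fun n _ => ?_)
      rw [map_smul, ← hb n]
      simp
    rw [← h1, ← h3]
    refine pow_le_pow_left₀ (norm_nonneg _) ?_ 2
    refine ((T.symm : V →L[ℂ] V).le_opNorm _).trans ?_
    exact mul_le_mul_of_nonneg_left (norm_window_sum_le u C hC k ω hω hsum N) (norm_nonneg _)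
  obtain ⟨N, hN⟩ := exists_nat_gt ((‖(T.symm : V →L[ℂ] V)‖ * (2 * k * k * C)) ^ 2)
  exact absurd (hlow N) (not_le.mpr hN)

section Box

variable {d : ℕ} (M : EuclideanSpace ℝ (Fin d) ≃ₗ[ℝ] EuclideanSpace ℝ (Fin d))

/-- The preimage under `M⁻¹` of the box `∏ [a i, b i)`. -/
def box (a b : Fin d → ℝ) : Set (EuclideanSpace ℝ (Fin d)) :=
  {x | ∀ i, a i ≤ (M.symm x) i ∧ (M.symm x) i < b i}

theorem continuous_symm_coord (i : Fin d) :
    Continuous (fun x : EuclideanSpace ℝ (Fin d) => (M.symm x) i) := by
  have h : Continuous (fun x : EuclideanSpace ℝ (Fin d) => M.symm x) :=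
    (M.symm : EuclideanSpace ℝ (Fin d) →ₗ[ℝ] EuclideanSpace ℝ (Fin d)).continuous_of_finiteDimensional
  fun_prop

theorem measurableSet_box (a b : Fin d → ℝ) : MeasurableSet (box M a b) := by
  have : box M a b = ⋂ i, ({x | a i ≤ (M.symm x) i} ∩ {x | (M.symm x) i < b i}) := by
    ext x
    simp [box]
  rw [this]
  refine MeasurableSet.iInter (fun i => ?_)
  exact (measurableSet_le measurable_const (continuous_symm_coord M i).measurable).inter
    (measurableSet_lt (continuous_symm_coord M i).measurable measurable_const)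

theorem isBounded_box (a b : Fin d → ℝ) : Bornology.IsBounded (box M a b) := by
  have hM : Continuous (fun x : EuclideanSpace ℝ (Fin d) => M x) :=
    (M : EuclideanSpace ℝ (Fin d) →ₗ[ℝ] EuclideanSpace ℝ (Fin d)).continuous_of_finiteDimensional
  have h1 : IsCompact ((WithLp.toLp 2 : (Fin d → ℝ) → EuclideanSpace ℝ (Fin d)) ''
      (Set.Icc a b)) := by
    apply IsCompact.image isCompact_Icc
    exact PiLp.continuous_toLp 2 _
  have h2 := (h1.image hM).isBounded
  refine h2.subset ?_
  intro x hx
  refine ⟨M.symm x, ⟨(M.symm x).ofLp, ?_, ?_⟩, by simp⟩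
  · exact ⟨fun i => (hx i).1, fun i => (hx i).2.le⟩
  · rfl

theorem volume_box_pos (a b : Fin d → ℝ) (hab : ∀ i, a i < b i) : 0 < volume (box M a b) := by
  have hopen : IsOpen {x : EuclideanSpace ℝ (Fin d) | ∀ i, a i < (M.symm x) i ∧
      (M.symm x) i < b i} := by
    have : {x : EuclideanSpace ℝ (Fin d) | ∀ i, a i < (M.symm x) i ∧ (M.symm x) i < b i}
        = ⋂ i, ({x | a i < (M.symm x) i} ∩ {x | (M.symm x) i < b i}) := by
      ext x
      simp
    rw [this]
    refine isOpen_iInter_of_finite (fun i => ?_)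
    exact (isOpen_lt continuous_const (continuous_symm_coord M i)).inter
      (isOpen_lt (continuous_symm_coord M i) continuous_const)
  have hne : {x : EuclideanSpace ℝ (Fin d) | ∀ i, a i < (M.symm x) i ∧
      (M.symm x) i < b i}.Nonempty := by
    refine ⟨M (WithLp.toLp 2 (fun i => (a i + b i) / 2)), fun i => ?_⟩
    have := hab i
    simp only [LinearEquiv.symm_apply_apply]
    constructor <;> linarith
  refine lt_of_lt_of_le (hopen.measure_pos volume hne) (measure_mono ?_)
  intro x hx i
  exact ⟨(hx i).1.le, (hx i).2⟩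

theorem volume_box_lt_top (a b : Fin d → ℝ) : volume (box M a b) < ⊤ :=
  (isBounded_box M a b).measure_lt_top

/-- Translating a box. -/
theorem mem_box_sub (a b : Fin d → ℝ) (z : Fin d → ℝ) (x : EuclideanSpace ℝ (Fin d)) :
    x - M (WithLp.toLp 2 z) ∈ box M a b ↔ x ∈ box M (a + z) (b + z) := by
  simp only [box, Set.mem_ofPred_eq, map_sub, LinearEquiv.symm_apply_apply, PiLp.sub_apply,
    Pi.add_apply]
  refine forall_congr' (fun i => ?_)
  constructor
  · rintro ⟨h1, h2⟩
    constructor <;> linarith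
  · rintro ⟨h1, h2⟩
    constructor <;> linarith

end Box

/-- The side lengths of the window: `k` in direction `0`, and `1` in the other directions. -/
def side {d : ℕ} (hd : 0 < d) (k : ℕ) : Fin d → ℕ := fun i => if i = ⟨0, hd⟩ then k else 1

/-- The multi-tiling property of the box with integer side lengths. -/
theorem multiTiles_box {d : ℕ} (M : EuclideanSpace ℝ (Fin d) ≃ₗ[ℝ] EuclideanSpace ℝ (Fin d))
    (c : Fin d → ℕ) :
    MultiTiles (box M 0 (fun i => (c i : ℝ))) (lattice M) (∏ i, c i) := by
  refine Filter.Eventually.of_forall (fun x => ?_)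
  set y : Fin d → ℝ := (M.symm x).ofLp with hy
  have hset : {v | v ∈ lattice M ∧ x - v ∈ box M 0 (fun i => (c i : ℝ))}
      = (fun z : Fin d → ℤ => M (WithLp.toLp 2 (fun i => (z i : ℝ)))) ''
        (Fintype.piFinset (fun i => Finset.Ioc (⌊y i⌋ - c i) ⌊y i⌋) : Finset (Fin d → ℤ)) := by
    ext v
    simp only [lattice, Set.mem_ofPred_eq, Set.mem_image, Finset.mem_coe, Fintype.mem_piFinset,
      Finset.mem_Ioc]
    constructor
    · rintro ⟨⟨z, rfl⟩, hz⟩
      refine ⟨z, fun i => ?_, rfl⟩
      rw [mem_box_sub] at hz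
      obtain ⟨h1, h2⟩ := hz i
      simp only [Pi.add_apply, Pi.zero_apply, zero_add] at h1 h2
      constructor
      · have : ⌊y i⌋ < z i + c i := by
          rw [Int.floor_lt]
          push_cast
          rw [hy]
          linarith
        omega
      · exact Int.le_floor.mpr h1
    · rintro ⟨z, hz, rfl⟩
      refine ⟨⟨z, rfl⟩, ?_⟩
      rw [mem_box_sub]
      intro i
      obtain ⟨h1, h2⟩ := hz i
      simp only [Pi.add_apply, Pi.zero_apply, zero_add]
      constructor
      · exact Int.le_floor.mp h2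
      · have : ⌊y i⌋ < z i + c i := by omega
        rw [Int.floor_lt] at this
        push_cast at this
        rw [hy] at this
        linarith
  rw [hset, Set.InjOn.encard_image, Set.encard_coe_eq_coe_finsetCard, Fintype.card_piFinset]
  · simp
  · apply Function.Injective.injOn
    intro z z' h
    have h1 := M.injective h
    have h2 : (fun i => (z i : ℝ)) = (fun i => (z' i : ℝ)) := by
      simpa using h1
    funext i
    exact_mod_cast congrFun h2 i

/-- The Gabor function of the indicator of a set of finite measure is square integrable. -/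
theorem memLp_gaborFun {d : ℕ} (Ω : Set (EuclideanSpace ℝ (Fin d))) (hΩ : MeasurableSet Ω)
    (hfin : volume Ω < ⊤) (γ : EuclideanSpace ℝ (Fin d)) :
    MemLp (gaborFun (Ω.indicator 1) 0 γ) 2 volume := by
  have h1 : MemLp (Ω.indicator (1 : EuclideanSpace ℝ (Fin d) → ℂ)) 2 volume := by
    have := memLp_indicator_const (μ := (volume : Measure (EuclideanSpace ℝ (Fin d)))) 2 hΩ
      (1 : ℂ) (Or.inr hfin.ne)
    exact this
  have h2 : Continuous (fun x : EuclideanSpace ℝ (Fin d) =>
      Complex.exp (((2 * Real.pi * inner ℝ γ x : ℝ) : ℂ) * Complex.I)) := by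
    fun_prop
  refine h1.of_le ?_ ?_
  · unfold gaborFun
    simp only [sub_zero]
    exact h2.aestronglyMeasurable.mul h1.1
  · refine Filter.Eventually.of_forall (fun x => ?_)
    unfold gaborFun
    rw [norm_mul, Complex.norm_exp_ofReal_mul_I, one_mul, sub_zero]

theorem coeFn_sum_range {α : Type*} [MeasurableSpace α] {μ : Measure α} (v : ℕ → Lp ℂ 2 μ)
    (k : ℕ) : (∑ j ∈ Finset.range k, v j : Lp ℂ 2 μ) =ᵐ[μ]
      fun x => ∑ j ∈ Finset.range k, (v j : α → ℂ) x := by
  induction k with
  | zero =>
    simp only [Finset.range_zero, Finset.sum_empty]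
    exact Lp.coeFn_zero _ _ _
  | succ k ih =>
    simp only [Finset.sum_range_succ]
    filter_upwards [ih, Lp.coeFn_add (∑ j ∈ Finset.range k, v j : Lp ℂ 2 μ) (v k)] with x h1 h2
    rw [h2, Pi.add_apply, h1]

/-- **Main theorem.** For every `d ≥ 1`, every full rank lattice `Λ = M(ℤ^d)` and every level
`k ≥ 2` there is a bounded measurable set `Ω` of positive finite measure which multi-tiles `ℝ^d`
by `Λ` at level `k`, and such that for no set `Γ ⊆ ℝ^d` (countable or not) is the Gabor system
of the indicator of `Ω` over `Λ × Γ` a Riesz basis of `L²(ℝ^d)`. -/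
theorem result (d : ℕ) (hd : 0 < d)
    (M : EuclideanSpace ℝ (Fin d) ≃ₗ[ℝ] EuclideanSpace ℝ (Fin d)) (k : ℕ) (hk : 2 ≤ k) :
    ∃ Ω : Set (EuclideanSpace ℝ (Fin d)), IsWindow Ω ∧ MultiTiles Ω (lattice M) k ∧
      ∀ Γ : Set (EuclideanSpace ℝ (Fin d)),
        ¬ IsRieszBasisOfL2 volume (gaborSystem (Ω.indicator 1) (lattice M) Γ) := by
  classical
  set i0 : Fin d := ⟨0, hd⟩ with hi0
  set c : Fin d → ℕ := side hd k with hc
  set Ω := box M 0 (fun i => (c i : ℝ)) with hΩ
  have hc0 : c i0 = k := by simp [hc, side, hi0]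
  have hc1 : ∀ i, i ≠ i0 → c i = 1 := by
    intro i hi
    simp [hc, side, ← hi0, hi]
  have hcpos : ∀ i, 0 < c i := by
    intro i
    by_cases h : i = i0
    · rw [h, hc0]; omega
    · rw [hc1 i h]; omega
  have hprod : ∏ i, c i = k := by
    simp [hc, side]
  have hpos : 0 < volume Ω := volume_box_pos M _ _ (fun i => by simpa using hcpos i)
  have hfin : volume Ω < ⊤ := volume_box_lt_top M _ _
  refine ⟨Ω, ⟨measurableSet_box M _ _, isBounded_box M _ _, hpos, hfin⟩, ?_, ?_⟩
  · have := multiTiles_box M c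
    rwa [hprod] at this
  intro Γ
  rcases Γ.eq_empty_or_nonempty with rfl | ⟨γ, hγ⟩
  · -- the empty system
    rintro ⟨B, T, hB, hspan, himg⟩
    have hempty : classes volume
        (gaborSystem (Ω.indicator 1) (lattice M) (∅ : Set (EuclideanSpace ℝ (Fin d)))) = ∅ := by
      ext F
      simp [gaborSystem, classes]
    rw [hempty] at himg
    have hBe : B = ∅ := by
      have := himg.symm
      rwa [Set.image_eq_empty] at this
    rw [hBe, Submodule.span_empty] at hspan
    have hbot : (⊥ : Submodule ℂ (Lp ℂ 2 (volume : Measure (EuclideanSpace ℝ (Fin d))))) = ⊤ := by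
      rw [← hspan]
      symm
      exact (IsClosed.submodule_topologicalClosure_eq (by simp))
    have hall : ∀ F : Lp ℂ 2 (volume : Measure (EuclideanSpace ℝ (Fin d))), F = 0 := by
      intro F
      have : F ∈ (⊥ : Submodule ℂ (Lp ℂ 2 (volume : Measure (EuclideanSpace ℝ (Fin d))))) := by
        rw [hbot]; trivial
      simpa using this
    have h1 := hall (indicatorConstLp 2 (measurableSet_box M _ _ : MeasurableSet Ω) hfin.ne (1 : ℂ))
    have h2 : ‖indicatorConstLp 2 (measurableSet_box M _ _ : MeasurableSet Ω) hfin.ne (1 : ℂ)‖ = 0 := by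
      rw [h1]; simp
    rw [norm_indicatorConstLp (by norm_num) (by norm_num)] at h2
    have h3 : 0 < volume.real Ω := by
      rw [measureReal_def]
      exact ENNReal.toReal_pos hpos.ne' hfin.ne
    have h4 : 0 < ‖(1 : ℂ)‖ * volume.real Ω ^ (1 / (2 : ENNReal).toReal) := by
      rw [norm_one, one_mul]
      exact Real.rpow_pos_of_pos h3 _
    linarith
  · -- cells
    set a : ℕ → Fin d → ℝ := fun n i => if i = i0 then (n : ℝ) else 0 with ha
    have ha0 : ∀ n, a n i0 = n := by intro n; simp [ha]
    have ha1 : ∀ n i, i ≠ i0 → a n i = 0 := by intro n i hi; simp [ha, hi]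
    set cell : ℕ → Set (EuclideanSpace ℝ (Fin d)) := fun n => box M (a n) (a n + 1) with hcell
    have hcellm : ∀ n, MeasurableSet (cell n) := fun n => measurableSet_box M _ _
    have hcellf : ∀ n, volume (cell n) < ⊤ := fun n => volume_box_lt_top M _ _
    have hcellp : ∀ n, 0 < volume (cell n) := by
      intro n
      refine volume_box_pos M _ _ (fun i => ?_)
      simp
    have hmemcell : ∀ n x, x ∈ cell n ↔ ((n : ℝ) ≤ (M.symm x) i0 ∧ (M.symm x) i0 < n + 1) ∧
        ∀ i, i ≠ i0 → 0 ≤ (M.symm x) i ∧ (M.symm x) i < 1 := by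
      intro n x
      constructor
      · intro h
        refine ⟨?_, fun i hi => ?_⟩
        · have := h i0
          simpa [ha0] using this
        · have := h i
          simpa [ha1 n i hi] using this
      · rintro ⟨h1, h2⟩ i
        by_cases hi : i = i0
        · subst hi
          simpa [ha0] using h1
        · simpa [ha1 n i hi] using h2 i hi
    have hmemΩ : ∀ n : ℕ, ∀ x, x - M (WithLp.toLp 2 (a n)) ∈ Ω ↔
        ((n : ℝ) ≤ (M.symm x) i0 ∧ (M.symm x) i0 < n + k) ∧
        ∀ i, i ≠ i0 → 0 ≤ (M.symm x) i ∧ (M.symm x) i < 1 := by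
      intro n x
      rw [hΩ, mem_box_sub]
      constructor
      · intro h
        refine ⟨?_, fun i hi => ?_⟩
        · have := h i0
          simp only [Pi.add_apply, Pi.zero_apply, zero_add, ha0, hc0] at this
          exact ⟨this.1, by linarith [this.2]⟩
        · have := h i
          simpa [ha1 n i hi, hc1 i hi] using this
      · rintro ⟨h1, h2⟩ i
        by_cases hi : i = i0
        · subst hi
          simp only [Pi.add_apply, Pi.zero_apply, zero_add, ha0, hc0]
          exact ⟨h1.1, by linarith [h1.2]⟩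
        · simpa [ha1 n i hi, hc1 i hi] using h2 i hi
    have hpoint : ∀ (n : ℕ) (x : EuclideanSpace ℝ (Fin d)),
        ∑ j ∈ Finset.range k, (cell (n + j)).indicator (1 : EuclideanSpace ℝ (Fin d) → ℂ) x
          = Ω.indicator 1 (x - M (WithLp.toLp 2 (a n))) := by
      intro n x
      by_cases hx : x - M (WithLp.toLp 2 (a n)) ∈ Ω
      · rw [Set.indicator_of_mem hx]
        rw [hmemΩ] at hx
        obtain ⟨⟨h1, h2⟩, h3⟩ := hx
        have hnn : 0 ≤ (M.symm x) i0 - n := by linarith
        set j := ⌊(M.symm x) i0 - n⌋₊ with hj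
        have hj1 : (j : ℝ) ≤ (M.symm x) i0 - n := Nat.floor_le hnn
        have hj2 : (M.symm x) i0 - n < j + 1 := Nat.lt_floor_add_one _
        have hjk : j < k := by
          have : (j : ℝ) < k := by linarith
          exact_mod_cast this
        rw [Finset.sum_eq_single_of_mem j (Finset.mem_range.mpr hjk)]
        · rw [Set.indicator_of_mem]
          · simp
          · rw [hmemcell]
            refine ⟨⟨?_, ?_⟩, h3⟩
            · push_cast; linarith
            · push_cast; linarith
        · intro l _ hlj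
          apply Set.indicator_of_notMem
          intro hmem
          rw [hmemcell] at hmem
          obtain ⟨⟨h4, h5⟩, -⟩ := hmem
          push_cast at h4 h5
          apply hlj
          have e1 : (l : ℝ) < j + 1 := by linarith
          have e2 : (j : ℝ) < l + 1 := by linarith
          have e1' : l < j + 1 := by exact_mod_cast e1
          have e2' : j < l + 1 := by exact_mod_cast e2
          omega
      · rw [Set.indicator_of_notMem hx]
        apply Finset.sum_eq_zero
        intro l hl
        apply Set.indicator_of_notMem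
        intro hmem
        apply hx
        rw [hmemcell] at hmem
        rw [hmemΩ]
        obtain ⟨⟨h4, h5⟩, h6⟩ := hmem
        push_cast at h4 h5
        have hlk : (l : ℝ) + 1 ≤ k := by exact_mod_cast Finset.mem_range.mp hl
        have hl0 : (0 : ℝ) ≤ l := Nat.cast_nonneg l
        exact ⟨⟨by linarith, by linarith⟩, h6⟩
    -- the vectors
    set u : ℕ → Lp ℂ 2 (volume : Measure (EuclideanSpace ℝ (Fin d))) := fun n =>
      (memLp_gaborFun (cell n) (hcellm n) (hcellf n) γ).toLp _ with hu
    have hvol : ∀ n, volume (cell n) = volume (cell 0) := by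
      intro n
      have h1 : cell n = (fun x => x + -(M (WithLp.toLp 2 (a n)))) ⁻¹' (cell 0) := by
        ext x
        rw [Set.mem_preimage, ← sub_eq_add_neg, hcell]
        simp only
        rw [mem_box_sub]
        have e1 : a 0 + a n = a n := by
          funext i
          simp [ha]
        have e2 : a 0 + 1 + a n = a n + 1 := by
          funext i
          simp [ha, add_comm]
        rw [e1, e2]
      rw [h1, measure_preimage_add_right]
    have hnorm : ∀ n, ‖u n‖ ≤ ‖u 0‖ := by
      intro n
      apply le_of_eq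
      have h0 : ∀ m, eLpNorm (gaborFun ((cell m).indicator 1) 0 γ) 2 volume
          = eLpNorm ((cell m).indicator (fun _ => (1 : ℂ))) 2 volume := by
        intro m
        apply eLpNorm_congr_norm_ae
        refine Filter.Eventually.of_forall (fun x => ?_)
        simp only [gaborFun, sub_zero, norm_mul, Complex.norm_exp_ofReal_mul_I, one_mul]
        rfl
      simp only [hu, Lp.norm_toLp]
      rw [h0, h0, eLpNorm_indicator_const (hcellm n) (by norm_num) (by norm_num),
        eLpNorm_indicator_const (hcellm 0) (by norm_num) (by norm_num), hvol n]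
    have hf : ∀ n, (∑ j ∈ Finset.range k, u (n + j) :
        Lp ℂ 2 (volume : Measure (EuclideanSpace ℝ (Fin d)))) =ᵐ[volume]
        gaborFun (Ω.indicator 1) (M (WithLp.toLp 2 (a n))) γ := by
      intro n
      have h1 : ∀ j, (u (n + j) : EuclideanSpace ℝ (Fin d) → ℂ) =ᵐ[volume]
          gaborFun ((cell (n + j)).indicator 1) 0 γ := by
        intro j
        exact MemLp.coeFn_toLp _
      have h2 : ∀ᵐ x ∂(volume : Measure (EuclideanSpace ℝ (Fin d))), ∀ j,
          (u (n + j) : EuclideanSpace ℝ (Fin d) → ℂ) x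
            = gaborFun ((cell (n + j)).indicator 1) 0 γ x := ae_all_iff.mpr h1
      filter_upwards [coeFn_sum_range (fun j => u (n + j)) k, h2] with x h3 h4
      rw [h3]
      simp only [h4, gaborFun, sub_zero]
      rw [← Finset.mul_sum, hpoint]
    refine not_isRieszBasis _ u ‖u 0‖ hnorm k hk ?_ ?_
    · -- injectivity
      have key : ∀ n m : ℕ, n < m →
          (∑ j ∈ Finset.range k, u (n + j)) ≠ ∑ j ∈ Finset.range k, u (m + j) := by
        intro n m hnm heq
        have hae : ∀ᵐ x ∂(volume : Measure (EuclideanSpace ℝ (Fin d))), x ∉ cell n := by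
          filter_upwards [hf n, hf m] with x h1 h2 hx
          rw [heq, h2] at h1
          rw [hmemcell] at hx
          obtain ⟨⟨h3, h4⟩, h5⟩ := hx
          have hnm' : (n : ℝ) + 1 ≤ m := by exact_mod_cast hnm
          have hk' : (2 : ℝ) ≤ k := by exact_mod_cast hk
          have h6 : x - M (WithLp.toLp 2 (a n)) ∈ Ω := by
            rw [hmemΩ]
            exact ⟨⟨h3, by linarith⟩, h5⟩
          have h7 : x - M (WithLp.toLp 2 (a m)) ∉ Ω := by
            rw [hmemΩ]
            rintro ⟨⟨h8, -⟩, -⟩
            linarith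
          simp only [gaborFun, Set.indicator_of_mem h6, Set.indicator_of_notMem h7, mul_zero,
            Pi.one_apply, mul_one] at h1
          exact Complex.exp_ne_zero _ h1.symm
        have h0 : volume (cell n) = 0 := by
          have := measure_eq_zero_iff_ae_notMem.mpr hae
          exact this
        exact (hcellp n).ne' h0
      intro n m hnm
      rcases lt_trichotomy n m with h | h | h
      · exact absurd hnm (key n m h)
      · exact h
      · exact absurd hnm.symm (key m n h)
    · intro n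
      refine ⟨_, ⟨M (WithLp.toLp 2 (a n)), ⟨fun i => if i = i0 then (n : ℤ) else 0, ?_⟩, γ, hγ,
        rfl⟩, hf n⟩
      congr 2
      funext i
      simp only [ha]
      split_ifs <;> simp

end

end Pool.Agent.Results.MP_9d6809_an.NoGamma
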